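import Pool.Agent.Helper11U.Abs
import Pool.Agent.Helper11U.Nice

/-!
# The absolute Hodge conjecture for trilinear hypersurfaces

`C` is the category of motives over `ℂ` for absolute Hodge cycles. For a separated scheme `X` of finite
type over `ℂ` the object `G i w X` of `C` is the graded piece of weight `w` of the cohomology `H^i_c(X)` with
compact support.

For a trilinear form `T(x, y, z) = ∑ T_{ijk} x_i y_j z_k` over `ℂ` let `V_T` be the smooth affine hypersurface
`T(x, y, z) = 1`, and `Y_T` the affine scheme of the bilinear equations `∑_{ij} T_{ijk} x_i y_j = 0`. Their
dimensions are arbitrary.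
-/

set_option autoImplicit false

open CategoryTheory CategoryTheory.Limits AlgebraicGeometry
open Pool.Agent.Helper11U Pool.Agent.Y116.UV Pool.Agent.Z125.UN Pool.Agent.Q282.UK

universe v u

namespace Pool.Agent.Results.MP_e2e4f5_ag.HodgeClasses

/-- One of the three blocks of variables of the trilinear form `T` has at most five elements, or the
block `z` has at most six elements and every minor of the matrix of linear forms
`T(z)_{ij} = ∑_k T_{ijk} z_k` is a product of polynomials of degree at most five and of polynomials with
at most six terms. -/
def FourfoldType {a b c : ℕ} (T : Fin a → Fin b → Fin c → ℂ) : Prop :=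
  (a ≤ 5 ∨ b ≤ 5 ∨ c ≤ 5) ∨ (c ≤ 6 ∧ NiceMinors 5 6 T)

variable {C : Type u} [Category.{v} C] [Abelian C]

/-- The known facts of `IsAbsThy`, and, for `Q` the de Rham part (Q1) and for `Q` the `ℓ`-adic part (Q2):
* `threefolds`: `Q` is true for smooth proper schemes of dimension at most three (theorem of Lefschetz on
  divisors and hard Lefschetz theorem);
* `fourfolds`: `Q` is true for the graded pieces of `H^i_c(X)` for the closed subschemes `X` of the affine
  spaces of dimension at most five all of whose equations are products of polynomials of degree at most
  five and of polynomials with at most six terms. (The components of dimension four are hypersurfaces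
  of degree at most five, hence uniruled, and Hodge classes on them are algebraic by Conte and Murre,
  or they are dominated by products of Fermat varieties and affine spaces, and the motives of Fermat
  varieties are in the category generated by abelian varieties, Deligne, or birational to a product of
  a threefold and a line.) -/
structure IsFourfoldThy (D : AbsThy C) : Prop extends IsAbsThy D where
  threefolds : ∀ Q, IsPart D Q → ForSmoothProper (fun Y => ∀ i, Q (D.G i i Y)) 3
  fourfolds : ∀ Q, IsPart D Q → ForNice (fun X => ∀ i w, Q (D.G i w X)) 5 5 6

variable {D : AbsThy C} {Q : C → Prop}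

/-- **Theorem.** Let `Q` be the de Rham part (Q1) or the ℓ-adic part (Q2) of the question. Let `T` be a
trilinear form over `ℂ` such that one of the three blocks of variables has at most five elements, or
there are at most six variables `z` and every minor of the matrix of linear forms `T(z)` is a product
of polynomials of degree at most five and of polynomials with at most six terms. Then `Q` is true for
the graded pieces of `H^i_c` of the hypersurface `T(x, y, z) = 1` and of the affine scheme of the bilinear
equations `T_k(x, y) = 0`. -/
theorem result (hD : IsFourfoldThy D) (hQ : IsPart D Q) {a b c : ℕ} (T : Fin a → Fin b → Fin c → ℂ)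
    (hT : FourfoldType T) (i w : ℤ) : Q (D.G i w (hypS T)) ∧ Q (D.G i w (bilS T)) := by
  have hA := isAdd_part hD.toIsAbsThy hQ
  have h0 := hD.point Q hQ
  have hB := bnd_gr hD.gr hA h0
  have h1 : ∀ i w, Q (D.G i w (hypS T)) := by
    rcases hT with h | ⟨h1, h2⟩
    · exact (class_iff hD.gr hD.pure hD.resolution hA h0 3).mp (hD.threefolds Q hQ) a b c T h
    · exact nice_tri hB (hD.fourfolds Q hQ) T h1 h2
  exact ⟨h1 i w, (bil_iff hB T).mpr h1 i w⟩

end Pool.Agent.Results.MP_e2e4f5_ag.HodgeClasses
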