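import Pool.Agent.Helper11U.Abs
import Pool.Agent.Helper11U.Kuga

/-!
# The absolute Hodge conjecture and quartic surfaces

`C` is the tensor category of motives over `ℂ` for absolute Hodge cycles. For a separated scheme `X` of
finite type over `ℂ` the object `G i w X` of `C` is the graded piece of weight `w` of the cohomology
`H^i_c(X)` with compact support; for smooth proper `X` the object `G i i X` is the motive `h^i(X)`.

For a trilinear form `T(x, y, z) = ∑ T_{ijk} x_i y_j z_k` over `ℂ` let `V_T` be the smooth affine hypersurface
`T(x, y, z) = 1`, and `Y_T` the affine scheme of the bilinear equations `∑_{ij} T_{ijk} x_i y_j = 0`. Their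
dimensions are arbitrary. If there are at most four variables `z`, then they are assembled from the closed
subschemes of the affine space of dimension three which are defined by minors of the matrix of
linear forms `T(z)_{ij} = ∑_k T_{ijk} z_k`.
-/

set_option autoImplicit false

open CategoryTheory CategoryTheory.Limits AlgebraicGeometry
open Pool.Agent.Helper11U Pool.Agent.Y116.UV Pool.Agent.Z125.UN Pool.Agent.Q282.UK

universe v u

namespace Pool.Agent.Results.MP_e2e4f5_ag.QuarticSurfaces

variable {C : Type u} [Category.{v} C] [Abelian C] [MonoidalCategory C]

/-- The known facts of `IsAvThy` (`AV = M^av`, the category generated by Artin motives and abelian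
varieties), and Deligne's theorem: Q1 and Q2 are true for the motives in `M^av`. -/
structure IsQuarticThy (D : AbsThy C) (AV : C → Prop) : Prop where
  av : IsAvThy D.toGrThy AV
  deligne : ∀ Q, IsPart D Q → ∀ M, AV M → Q M

variable {D : AbsThy C} {AV : C → Prop} {Q : C → Prop}

/-- **Theorem.** Let `Q` be the de Rham part (Q1) or the ℓ-adic part (Q2) of the question. Then `Q` is true
for all motives which are obtained by direct sums, direct summands, tensor products and Tate twists
from the graded pieces of `H^i_c` of the hypersurfaces `T(x, y, z) = 1` and of the affine schemes of the
bilinear equations `T_k(x, y) = 0`, for all trilinear forms `T` over `ℂ` such that one of the three blocks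
of variables has at most three elements, or two blocks have at most four elements, or there are at
most four variables `z` and every minor of the matrix of linear forms `T(z)` is a product of
polynomials of degree at most four and of polynomials with at most four terms. -/
theorem result (hD : IsQuarticThy D AV) (hQ : IsPart D Q) (M : C)
    (hM : Generated D.toGrThy QuarticType M) : Q M :=
  hD.deligne Q hQ M (av_generated hD.av hM)

end Pool.Agent.Results.MP_e2e4f5_ag.QuarticSurfaces
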