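import Pool.Agent.Helper11U.Abs

/-!
# The absolute Hodge conjecture and trilinear forms

`C` is the (semisimple, abelian) category of motives over `ℂ` for absolute Hodge cycles. For a separated
scheme `X` of finite type over `ℂ` the object `G i w X` of `C` is the graded piece of weight `w` of the
cohomology `H^i_c(X)` with compact support, and `T M = M(-1)` is the Tate twist. For smooth proper `Y` the
object `G i i Y` is the motive `h^i(Y)`.

The hypersurfaces `T(x, y, z) = 1` in affine spaces for trilinear forms `T` over `ℂ` are smooth, of
arbitrary dimension. If one of the three blocks of variables `x`, `y`, `z` has at most `d + 2` elements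
then the graded pieces of `H^i_c` are assembled from varieties of dimension at most `d`, and conversely
every variety of dimension at most `d` is obtained from these hypersurfaces by closed-open
decompositions and affine bundles (starting files).
-/

set_option autoImplicit false

open CategoryTheory CategoryTheory.Limits AlgebraicGeometry
open Pool.Agent.Helper11U Pool.Agent.Y116.UV Pool.Agent.Z125.UN Pool.Agent.Q282.UK

universe v u

namespace Pool.Agent.Results.MP_e2e4f5_ag.TrilinearHypersurfaces

variable {C : Type u} [Category.{v} C] [Abelian C] {D : AbsThy C} {Q : C → Prop}

/-- **Theorem.** Let `Q` be the de Rham part (Q1) or the ℓ-adic part (Q2) of the question, and `d = 0, 1, 2, …`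
or `d = ∞`. Then `Q` is true for all smooth proper schemes over `ℂ` of dimension at most `d` if and only
if `Q` is true for the graded pieces of `H^i_c(V)`, for the hypersurfaces `V : T(x, y, z) = 1` of all trilinear
forms `T` over `ℂ` such that one of the three blocks of variables has at most `d + 2` elements. -/
theorem result (hD : IsAbsThy D) (hQ : IsPart D Q) (d : ℕ∞) :
    ForSmoothProper (fun Y => ∀ i, Q (D.G i i Y)) d ↔
      ForBlocks (fun V => ∀ i w, Q (D.G i w V)) (d + 2) :=
  class_blocks hD.gr hD.pure hD.resolution (isAdd_part hD hQ) (hD.point Q hQ) d

end Pool.Agent.Results.MP_e2e4f5_ag.TrilinearHypersurfaces
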