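import Pool.Agent.Hx88.AH.Main

/-!
# The absolute Hodge conjecture for products of powers of very general members of nodal families with
# arbitrary varieties

Let `T` be a Hodge theory on a class of smooth projective varieties (in the intended use all smooth
projective complex varieties with `X ↦ H(X, ℚ)`). Let `Z = X o` and the varieties `X i` (`i ≠ o`), of
any dimensions, be the members over one very general point `s` of families over a connected base `B`
with fundamental group `Γ`. Assume the following.

* For every `i ≠ o` some loop `g ∈ Γ` acts on the transcendental cohomology of `X i` (the orthogonal
  complement of the classes of algebraic cycles, which is assumed to be in the middle degree and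
  irreducible under all subgroups of finite index) by the formula of Picard and Lefschetz, and
  trivially on the cohomology of the other `X j` and of `Z` (`NodalMonodromy`). This is so for
  example if the `X i` are members of Lefschetz pencils, or of the complete linear systems of very
  ample divisors of odd-dimensional or even-dimensional varieties without transcendental cohomology
  (hypersurfaces, complete intersections), `B` is the product of the parameter spaces, and `Z` is
  ANY smooth projective variety, constant in the family.
* The Hodge classes on the products of powers of the `X i` with `Z` are fixed by subgroups of finite
  index of `Γ` (`hH`). For very general `s` this is a well known theorem: they stay Hodge classes in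
  the whole family, and the monodromy group acts through a finite group on them because they lie in
  a polarized variation of Hodge structures of type `(0, 0)` (Deligne).

Let `Y` be a product of powers of different `X i` with `Z`, where for an even-dimensional `X i` the
exponent is less than the dimension of its transcendental cohomology. Then there is a number `N ≥ 1`
such that

* there are `N` times as many linearly independent Hodge classes on `Y` as on `Z`;
* for every system `D` of conjugate theories and comparison isomorphisms there are `N` times as many
  linearly independent absolutely Hodge classes for `D` on `Y` as on `Z`.

Hence for every `D` all Hodge classes on `Y` are absolutely Hodge for `D` if and only if this is true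
for `Z`. Here `D` can consist of the de Rham comparison isomorphism for one automorphism `σ` of `ℂ`
(part Q1 of the problem), of the `ℓ`-adic one for one `ℓ` and one `σ`, or of all of them (the
formulation of Deligne). In particular, by the theorem of Deligne, all Hodge classes on `Y` are
absolutely Hodge if `Z` is an abelian variety: the absolute Hodge conjecture is true for the products
of abelian varieties with (powers of) very general hypersurfaces.

The proof. Invariant theory: every class on `Y = V × U` (`V` a power of `X i`) fixed by a subgroup of
finite index is a sum of products of classes `a` of algebraic cycles on `V` (monomials in the classes
of cycles on the factors and the components of the diagonals) with classes on `U`. If the `a` are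
linearly independent, the coefficients are direct images of products with Hodge classes on `V` (dual
to the `a`, by the polarization), so they are (absolutely) Hodge classes if the given class is so.
-/

open CategoryTheory AlgebraicGeometry

universe u

namespace Pool.Agent.Results.MP_e2e4f5_ag.VeryGeneralNodal

open Pool.Agent.H914 Pool.Agent.Y121.AHS Pool.Agent.Hx88.AH

variable {k : Type u} [Field k] {𝒱 : VarClass k} {ops : CycleOps 𝒱}

/-- **Absolutely Hodge classes on the products of powers of very general members of nodal families
with an arbitrary variety `Z`.** -/
theorem result (T : HodgeTheory ops) {Γ : Type} [Group Γ] {ι : Type} (X : ι → MVar T.W Γ) (o : ι)
    (h : NodalMonodromy X o) (hH : ∀ S Y, Tower X o S Y → Fixes (IsHodge T Y.X) Y.act)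
    (S : Set ι) (Y : MVar T.W Γ) (hY : Tower X o S Y) :
    (∃ N : ℕ, 0 < N ∧ hodgeDim T Y.X = N * hodgeDim T (X o).X ∧
      ∀ D : Conjugates T, absDim D Y.X = N * absDim D (X o).X) ∧
    ∀ D : Conjugates T, AllAbs D Y.X ↔ AllAbs D (X o).X :=
  ⟨tower_dims h hH hY, tower_abs h hH hY⟩

end Pool.Agent.Results.MP_e2e4f5_ag.VeryGeneralNodal
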